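import Pool.Agent.H31.CF.Defs

/-!
# Complete family (MP_347b49_nt), part U: targets for the unfolding with the kernel
-/

set_option autoImplicit false

open MeasureTheory Set Filter
open scoped Real Matrix MatrixGroups

namespace Pool.Agent.H31.CF

open Pool.Agent.H31.CN Pool.Agent.H91.CF

/-! ## The kernel -/

/-- (KIN) invariance, symmetry, bound of the kernel; the vectors `(e, 0)`. -/
def T_KIN : Prop :=
  ∀ (f : ℕ) (Q : QF) (v v' : ℤ × ℤ), 1 ≤ f →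
    (∀ g : SL(2, ℤ), kern f (act Q g) v v' = kern f Q (gv g v) (gv g v')) ∧
    kern f Q v v' = kern f Q v' v ∧ |kern f Q v v'| ≤ 1 ∧
    (∀ e : ℕ, kern f Q ((e : ℤ), 0) v' = if Nat.Coprime e f then kern f Q (1, 0) v' else 0) ∧
    (Int.gcd Q.1 f ≠ 1 → kern f Q (1, 0) v' = 0)

/-- (GRL) the Gram identity at one prime. -/
def T_GRL : Prop :=
  ∀ (f p : ℕ) (Q : QF) (v v' : ℤ × ℤ), 1 ≤ f → p.Prime → p ∣ f →
    (Nat.totient (p ^ f.factorization p) : ℝ) * kp f p Q v v' =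
      ∑ a ∈ Finset.range (p ^ f.factorization p), ∑ b ∈ Finset.range (p ^ f.factorization p),
        kp f p Q ((a : ℤ), (b : ℤ)) v * kp f p Q ((a : ℤ), (b : ℤ)) v'

/-- (GRM) the Gram identity. -/
def T_GRM : Prop :=
  ∀ (f : ℕ) (Q : QF) (v v' : ℤ × ℤ), 1 ≤ f →
    (Nat.totient f : ℝ) * kern f Q v v' =
      ∑ a ∈ Finset.range f, ∑ b ∈ Finset.range f,
        kern f Q ((a : ℤ), (b : ℤ)) v * kern f Q ((a : ℤ), (b : ℤ)) v'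

/-- (POS) the quadratic form of the kernel is positive. -/
def T_POS : Prop :=
  ∀ (f : ℕ) (Q : QF) (h : ℤ × ℤ → ℝ), 1 ≤ f → Summable (fun v => |h v|) →
    (∀ v, Summable fun v' => h v' * kern f Q v v') ∧
    Summable (fun v => h v * ∑' v', h v' * kern f Q v v') ∧
    0 ≤ ∑' v, h v * ∑' v', h v' * kern f Q v v' ∧
    ∑' x : (ℤ × ℤ) × (ℤ × ℤ), h x.1 * h x.2 * kern f Q x.1 x.2 =
      ∑' v, h v * ∑' v', h v' * kern f Q v v'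

/-! ## Unfolding -/

/-- (ORW) unfolding over the classes of forms, general weights with positive sums. -/
def T_ORW : Prop :=
  ∀ (Δ k : ℕ) (K c : ℝ) (w : QF → ℤ × ℤ → ℝ), 0 < Δ → 0 < c →
    (∀ Q ∈ FD Δ, w Q 0 = 0) →
    (∀ Q ∈ FD Δ, ∀ g v, w (act Q g) v = w Q (gv g v)) →
    (∀ Q ∈ FD Δ, ∀ v, v ≠ 0 → |w Q v| ≤
      K * (1 + (Q.1 : ℝ)) ^ k * Real.exp (-(c * val Q v))) →
    (∀ Q ∈ FD Δ, 0 ≤ ∑' v, w Q v) →
    ∀ (ι : Type) [Fintype ι] (Q : ι → QF), (∀ i, Q i ∈ FD Δ) →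
      (∀ i j g, act (Q i) g = Q j → i = j ∧ (g = 1 ∨ g = -1)) →
      ∑ i, ∑' v, w (Q i) v ≤ 2 * US Δ (fun R e => w R ((e : ℤ), 0)) (fun _ => 1)

/-- (HKG) the Hecke operators on sums over vectors with a weight which does not change on the
sublattices of index `p`. -/
def T_HKG : Prop :=
  ∀ (Δ : ℕ) (K c : ℝ) (h : ℝ → ℝ) (κ : QF → ℤ × ℤ → ℝ) (l : List ℕ), 0 < Δ → 0 < c →
    (∀ x, 0 < x → |h x| ≤ K * Real.exp (-(c * x))) → (∀ Q v, |κ Q v| ≤ 1) → l.Nodup →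
    (∀ p ∈ l, p.Prime) →
    (∀ p ∈ l, ∀ Q ∈ FD Δ, ∀ v : ℤ × ℤ,
      ((p : ℤ) ∣ Q.1 → (p : ℤ) ∣ v.2 →
        κ (Q.1 / p, Q.2.1, p * Q.2.2) (v.1, v.2 / p) = κ Q v) ∧
      (∀ j : ℤ, (p : ℤ) ∣ Q.1 * j ^ 2 + Q.2.1 * j + Q.2.2 → (p : ℤ) ∣ v.1 - j * v.2 →
        κ (p * Q.1, Q.2.1 + 2 * Q.1 * j, (Q.1 * j ^ 2 + Q.2.1 * j + Q.2.2) / p)
          ((v.1 - j * v.2) / p, v.2) = κ Q v)) →
    ∀ Q ∈ FD Δ,
    ∑' v : ℤ × ℤ, (if v = 0 then 0 else h ((val Q v : ℝ) / (l.prod : ℝ)) *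
        ((l.map (fun p => nul p Q v)).prod : ℕ) * κ Q v) =
      TL l (fun R => ∑' v : ℤ × ℤ, if v = 0 then 0 else h (val R v) * κ R v) Q

/-- (KST) the kernel does not change on the sublattices of index `p`. -/
def T_KST : Prop :=
  ∀ (f p : ℕ) (Q : QF) (v : ℤ × ℤ), 1 ≤ f → p.Prime → Nat.Coprime p f →
    ((p : ℤ) ∣ Q.1 → (p : ℤ) ∣ v.2 →
      kern f (Q.1 / p, Q.2.1, p * Q.2.2) (1, 0) (v.1, v.2 / p) = kern f Q (1, 0) v) ∧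
    (∀ j : ℤ, (p : ℤ) ∣ Q.1 * j ^ 2 + Q.2.1 * j + Q.2.2 → (p : ℤ) ∣ v.1 - j * v.2 →
      kern f (p * Q.1, Q.2.1 + 2 * Q.1 * j, (Q.1 * j ^ 2 + Q.2.1 * j + Q.2.2) / p) (1, 0)
        ((v.1 - j * v.2) / p, v.2) = kern f Q (1, 0) v)

/-- (WCC) the weights with a coprimality condition under Hecke operators at primes which do not
divide `f`. -/
def T_WCC : Prop :=
  ∀ (f : ℕ) (ω : QF → ℕ → ℝ) (l : List ℕ), 1 ≤ f → (∀ p ∈ l, p.Prime ∧ Nat.Coprime p f) →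
    ∀ (Q : QF) (e : ℕ), 0 < Q.1 → 1 ≤ e →
      l.foldl (fun ω p => Wp p ω)
        (fun R e => if Nat.Coprime (e * R.1.toNat) f then ω R e else 0) Q e =
      if Nat.Coprime (e * Q.1.toNat) f then l.foldl (fun ω p => Wp p ω) ω Q e else 0

/-- (UNA) the unfolded second moment at level `D`. -/
def T_UNA : Prop :=
  ∀ (f D : ℕ), 1 ≤ f → 0 < D → ∀ (S : Finset ℕ) (c : ℕ → ℝ),
    (∀ m ∈ S, Squarefree m ∧ Nat.Coprime m f) →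
    ∀ (ι : Type) [Fintype ι] (Q : ι → QF), (∀ i, Q i ∈ FD D) →
      (∀ i j g, act (Q i) g = Q j → i = j ∧ (g = 1 ∨ g = -1)) →
      ∑ i, SQ f S c (Q i) ≤ 2 * ∑ m₁ ∈ S, ∑ m₂ ∈ S, c m₁ * c m₂ * U0 m₁ m₂ f D

/-! ## The sum over the vectors with the kernel -/

/-- (NPQ) the number of the unit lines. -/
def T_NPQ : Prop :=
  ∀ (f p : ℕ), 1 ≤ f → p.Prime → p ∣ f →
    (∀ Q : QF, ¬ (p : ℤ) ∣ Q.1 →
      npQ f p Q = np p Q.1 ((f1 f : ℤ) * Q.2.1) ((f1 f : ℤ) ^ 2 * Q.2.2)) ∧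
    (∀ (D : ℕ) (A B C : ℤ), (D % 4 = 0 ∨ D % 4 = 3) → ¬ (p : ℤ) ∣ A →
      4 * A * C - B ^ 2 = (f1 f : ℤ) ^ 2 * D → npD f p D = np p A B C)

/-- (KID) the local identity. -/
def T_KID : Prop :=
  ∀ (p : ℕ) (A B C x y : ℤ), p.Prime → ¬ (p : ℤ) ∣ A →
    (if (p : ℤ) ∣ A * x ^ 2 + B * x * y + C * y ^ 2 then 0 else
      (if (p : ℤ) ∣ y then (1 : ℝ) else 0) - 1 / np p A B C) =
      (if (p : ℤ) ∣ y then 1 - 1 / (np p A B C : ℝ) else 0) -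
      (1 / (np p A B C : ℝ)) * ((Finset.range p).filter (fun j : ℕ =>
        ¬ (p : ℤ) ∣ A * (j : ℤ) ^ 2 + B * j + C ∧ (p : ℤ) ∣ x - j * y)).card

/-- (KPR) the product of the local identities. -/
def T_KPR : Prop :=
  ∀ (g : ℕ) (A B C x y : ℤ), Squarefree g → Int.gcd A g = 1 →
    (∏ p ∈ g.primeFactors, (if (p : ℤ) ∣ A * x ^ 2 + B * x * y + C * y ^ 2 then 0 else
      (if (p : ℤ) ∣ y then (1 : ℝ) else 0) - 1 / np p A B C)) =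
    ∑ d ∈ g.divisors, cf g d A B C *
      (if ((g / d : ℕ) : ℤ) ∣ y then (((Finset.range d).filter (fun j : ℕ =>
        IsCoprime (A * (j : ℤ) ^ 2 + B * j + C) (d : ℤ) ∧ (d : ℤ) ∣ x - j * y)).card : ℝ) else 0)

/-- (KSM) sums over the vectors with the kernel, as sums over sublattices. -/
def T_KSM : Prop :=
  ∀ (f : ℕ) (Q : QF) (Φ : ℤ × ℤ → ℝ), 1 ≤ f → Int.gcd Q.1 f = 1 → Summable (fun v => |Φ v|) →
    ∑' v, Φ v * kern f Q (1, 0) v =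
      ∑ d ∈ (rd f).divisors,
        cf (rd f) d Q.1 ((f1 f : ℤ) * Q.2.1) ((f1 f : ℤ) ^ 2 * Q.2.2) *
        ∑ j ∈ (Finset.range d).filter (fun j : ℕ => IsCoprime (Q.1 * (j : ℤ) ^ 2 +
            (f1 f : ℤ) * Q.2.1 * j + (f1 f : ℤ) ^ 2 * Q.2.2) (d : ℤ)),
          ∑' v : ℤ × ℤ, Φ (d * v.1 + j * (rd f / d : ℕ) * v.2, (f1 f : ℤ) * (rd f / d : ℕ) * v.2)

/-- (FF1) the function `F1` in terms of the central values at level `f ^ 2 D`. -/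
def T_FF1 : Prop :=
  ∀ (f D : ℕ) (Q : QF), 1 ≤ f → 0 < D → Q ∈ FD D → Int.gcd Q.1 f = 1 →
    F1 f Q = ∑ d ∈ (rd f).divisors,
      cf (rd f) d Q.1 ((f1 f : ℤ) * Q.2.1) ((f1 f : ℤ) ^ 2 * Q.2.2) *
      Fgd (rd f) d ((f1 f : ℝ) ^ 2 * D) (Q.1, (f1 f : ℤ) * Q.2.1, (f1 f : ℤ) ^ 2 * Q.2.2)

/-! ## Change of the level -/

/-- (LVL) from level `D` to level `u ^ 2 D`. -/
def T_LVL : Prop :=
  ∀ (A u D : ℕ) (H : ℤ → ℤ → ℝ), 1 ≤ A → 1 ≤ u → Nat.Coprime A u → (D % 4 = 0 ∨ D % 4 = 3) →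
    (∀ B C, H (B + 2 * A) (A + B + C) = H B C) →
    ∑ b ∈ (Finset.range (2 * A)).filter (fun b => 4 * A ∣ b ^ 2 + D),
        H ((u : ℤ) * b) ((u : ℤ) ^ 2 * (((b ^ 2 + D) / (4 * A) : ℕ) : ℤ)) =
      ∑ B ∈ (Finset.range (2 * A)).filter (fun B => 4 * A ∣ B ^ 2 + u ^ 2 * D),
        H B (((B ^ 2 + u ^ 2 * D) / (4 * A) : ℕ) : ℤ)

/-- (NWS) the local weights: sublattices of index prime to `m₁ m₂`, and translations. -/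
def T_NWS : Prop :=
  ∀ (m₁ m₂ A e : ℕ) (B C : ℤ), 1 ≤ A →
    (∀ d s : ℕ, 1 ≤ d → 1 ≤ s → Nat.Coprime (m₁ * m₂) (d * s) →
      Nw m₁ m₂ (d ^ 2 * A) (d * s * B) (s ^ 2 * C) e = Nw m₁ m₂ A B C e ∧
      Nb m₁ m₂ (d ^ 2 * A) e = Nb m₁ m₂ A e) ∧
    (∀ k : ℤ, Nw m₁ m₂ A (B + 2 * A * k) (C + B * k + A * k ^ 2) e = Nw m₁ m₂ A B C e)

/-- (CFI) invariance of the coefficients and of the central values, bound. -/
def T_CFI : Prop :=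
  (∀ (g d A : ℕ) (B C : ℤ) (Δ : ℝ), Squarefree g → d ∣ g → 1 ≤ A → 0 < Δ →
    cf g d A (B + 2 * A) (A + B + C) = cf g d A B C ∧
    Fgd g d Δ ((A : ℤ), B + 2 * A, A + B + C) = Fgd g d Δ ((A : ℤ), B, C)) ∧
  (∀ (g d Δ : ℕ), Squarefree g → d ∣ g → 0 < Δ → ∃ (K : ℝ) (k : ℕ), ∀ (A : ℕ) (B C : ℤ),
    1 ≤ A → |Fgd g d Δ ((A : ℤ), B, C)| ≤ K * (1 + (A : ℝ)) ^ k)

/-- (UNB) the two forms of the unfolded second moment. -/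
def T_UNB : Prop :=
  ∀ (m₁ m₂ f D : ℕ), 1 ≤ f → 0 < D → (D % 4 = 0 ∨ D % 4 = 3) → Squarefree m₁ → Squarefree m₂ →
    Nat.Coprime m₁ f → Nat.Coprime m₂ f → U0 m₁ m₂ f D = Uff m₁ m₂ f D

/-- the final form from the two parts -/
theorem unff (h1 : T_UNA) (h2 : T_UNB) : T_UNFf := by
  intro f D hf hD hD4 S c hS ι _ Q hQ hQQ
  refine (h1 f D hf hD S c hS ι Q hQ hQQ).trans (le_of_eq ?_)
  refine congrArg (fun x => 2 * x) (Finset.sum_congr rfl fun m₁ hm₁ =>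
    Finset.sum_congr rfl fun m₂ hm₂ => ?_)
  rw [h2 m₁ m₂ f D hf hD hD4 (hS m₁ hm₁).1 (hS m₂ hm₂).1 (hS m₁ hm₁).2 (hS m₂ hm₂).2]

end Pool.Agent.H31.CF
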