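import Pool.Agent.H31.CF.Defs

/-!
# Complete family (MP_347b49_nt), part U: targets for the average over the discriminant at level `g`
-/

set_option autoImplicit false

open MeasureTheory Set Filter
open scoped Real

namespace Pool.Agent.H31.CF

open Pool.Agent.H31.CN Pool.Agent.H91.CF

/-- (SL1) the residues modulo `2 A d` in place of the pairs of a residue modulo `2 A` and a
residue modulo `d`. -/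
def T_SL1 : Prop :=
  ∀ (d A Δ : ℕ) (φ : ℤ → ℤ → ℝ) (Z : ℤ → ℝ), 1 ≤ d → 1 ≤ A →
    (∀ B C, φ (B + 2 * A) (A + B + C) = φ B C) →
    ∑ B ∈ (Finset.range (2 * A)).filter (fun B => 4 * A ∣ B ^ 2 + Δ),
      φ B (((B ^ 2 + Δ) / (4 * A) : ℕ) : ℤ) *
      ∑ j ∈ (Finset.range d).filter (fun j : ℕ =>
        IsCoprime (val ((A : ℤ), (B : ℤ), (((B ^ 2 + Δ) / (4 * A) : ℕ) : ℤ)) ((j : ℤ), 1)) (d : ℤ)),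
        Z ((B : ℤ) + 2 * A * j) =
    ∑ b ∈ (Finset.range (2 * A * d)).filter (fun b => 4 * A ∣ b ^ 2 + Δ ∧
        IsCoprime (((b ^ 2 + Δ) / (4 * A) : ℕ) : ℤ) (d : ℤ)),
      φ b (((b ^ 2 + Δ) / (4 * A) : ℕ) : ℤ) * Z b

/-- (SL2) from level `Δ` to level `(d s) ^ 2 Δ`. -/
def T_SL2 : Prop :=
  ∀ (d s A Δ : ℕ) (φ : ℤ → ℤ → ℝ) (Z : ℤ → ℝ), 1 ≤ d → 1 ≤ s → 1 ≤ A →
    (∀ t, Z (t + 2 * (d ^ 2 * A : ℕ)) = Z t) →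
    ∑ b ∈ (Finset.range (2 * A * d)).filter (fun b => 4 * A ∣ b ^ 2 + Δ ∧
        IsCoprime (((b ^ 2 + Δ) / (4 * A) : ℕ) : ℤ) (d : ℤ)),
      φ b (((b ^ 2 + Δ) / (4 * A) : ℕ) : ℤ) * Z ((d : ℤ) * s * b) =
    ∑ B ∈ (Finset.range (2 * (d ^ 2 * A))).filter (fun B =>
        4 * (d ^ 2 * A) ∣ B ^ 2 + (d * s) ^ 2 * Δ),
      ws d s (fun _ _ B C => φ B C) 0 (d ^ 2 * A) B
        (((B ^ 2 + (d * s) ^ 2 * Δ) / (4 * (d ^ 2 * A)) : ℕ) : ℤ) * Z B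

/-- (USL) the unfolded sum of level `g = d s` is an unfolded sum at discriminant `g ^ 2 Δ`. -/
def T_USL : Prop :=
  ∀ (q d s n m₁ m₂ Δ : ℕ) (K : ℝ) (w : ℕ → ℕ → ℤ → ℤ → ℝ), 1 ≤ d → 1 ≤ s → s ∣ n → 1 ≤ n →
    WD q K w → Squarefree m₁ → Squarefree m₂ → Nat.Coprime (m₁ * m₂) (d * s) → 0 < Δ →
    (d : ℝ) * US ((d * s) ^ 2 * Δ) (fun Q e => Vk ((e : ℝ) ^ 2 * Q.1 /
        (((d * (n / s) : ℕ) : ℝ) * m₁ * m₂ * Real.sqrt (((d * s) ^ 2 * Δ : ℕ) : ℝ))) /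
        Real.sqrt ((e : ℝ) ^ 2 * Q.1) * ws d s w e Q.1.toNat Q.2.1 Q.2.2 *
        Nw m₁ m₂ Q.1.toNat Q.2.1 Q.2.2 e)
        (fun Q => zf Q.1 Q.2.1 (((d * s) ^ 2 * Δ : ℕ) : ℝ)) =
      USg (d * s) d n m₁ m₂ w Δ

/-- (USZ) the sum vanishes at the other discriminants. -/
def T_USZ : Prop :=
  ∀ (d s m₁ m₂ Δ : ℕ) (w : ℕ → ℕ → ℤ → ℤ → ℝ) (h : QF → ℕ → ℝ) (F : QF → ℝ), 1 ≤ d → 1 ≤ s →
    ¬ (d * s) ^ 2 ∣ Δ →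
    US Δ (fun Q e => h Q e * ws d s w e Q.1.toNat Q.2.1 Q.2.2 *
      Nw m₁ m₂ Q.1.toNat Q.2.1 Q.2.2 e) F = 0

/-- (WDS) the weight at level `(d s) ^ 2 Δ` is a weight. -/
def T_WDS : Prop :=
  ∀ (q d s : ℕ) (K : ℝ) (w : ℕ → ℕ → ℤ → ℤ → ℝ), 1 ≤ q → 1 ≤ d → 1 ≤ s → WD q K w →
    WD ((d * s) ^ 2 * q) (s * K) (ws d s w)

/-- (WBS) the mean of the weight at level `(d s) ^ 2 Δ`. -/
def T_WBS : Prop :=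
  ∀ (q d s : ℕ) (K : ℝ) (w : ℕ → ℕ → ℤ → ℤ → ℝ) (e A : ℕ), 1 ≤ q → 1 ≤ d → 1 ≤ s → d ∣ q →
    WD q K w →
    wbar ((d * s) ^ 2 * q) (ws d s w) e A =
      if d ^ 2 ∣ A then 1 / ((d : ℝ) * s ^ 2) * wbd q d w e (A / d ^ 2) else 0

/-- (MNS) the main terms. -/
def T_MNS : Prop :=
  ∀ (q d s n m₁ m₂ : ℕ) (K : ℝ) (w : ℕ → ℕ → ℤ → ℤ → ℝ) (Δ : ℝ), 1 ≤ q → 1 ≤ d → 1 ≤ s →
    d ∣ q → s ∣ n → 1 ≤ n → WD q K w → Nat.Coprime (m₁ * m₂) (d * s) → 0 < Δ →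
    (d : ℝ) * (d * s : ℝ) ^ 2 * Mn ((d * s) ^ 2 * q) (d * (n / s)) m₁ m₂ (ws d s w)
      ((d * s : ℝ) ^ 2 * Δ) = Mng q n (d * s) d m₁ m₂ w Δ

/-- (AVGf) the average of the unfolded sum over the discriminant, level `g` dividing `n`. -/
def T_AVGf' : Prop :=
  ∀ (G : ℝ → ℝ) (η : ℝ), 0 < η → ContDiff ℝ (⊤ : ℕ∞) G → (∀ u, u ∉ Icc η 1 → G u = 0) →
  ∀ (q n g : ℕ) (K δ : ℝ), 1 ≤ q → 1 ≤ n → Squarefree g → g ∣ n → g ∣ q → 0 < δ → δ ≤ 1 / 100 →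
    ∃ X₀ : ℝ, ∀ X, X₀ ≤ X → ∀ (d m₁ m₂ : ℕ) (w : ℕ → ℕ → ℤ → ℤ → ℝ), d ∣ g → WD q K w →
      Squarefree m₁ → Squarefree m₂ → Nat.Coprime q m₁ → Nat.Coprime q m₂ →
      (m₁ : ℝ) ≤ X ^ (1 / 4 - δ) → (m₂ : ℝ) ≤ X ^ (1 / 4 - δ) →
      |(∑' Δ : ℕ, G (Δ / X) * USg g d n m₁ m₂ w Δ) -
        (1 / 2) * ∫ Δ in Ioi (0 : ℝ), G (Δ / X) * Mng q n g d m₁ m₂ w Δ| ≤ X ^ (-1 : ℝ)

end Pool.Agent.H31.CF
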