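import Pool.Agent.H31.CF.U3
import Pool.Agent.H31.CN.UNF
import Pool.Agent.H56.CN.ORB

/-!
# Row UUNA of the board cfm_modules: the unfolded second moment at level `D` with the kernel
-/

set_option autoImplicit false

open MeasureTheory Set Filter
open scoped Real Matrix MatrixGroups

namespace Pool.Agent.H31.CFU

open Pool.Agent.H31.CN Pool.Agent.H91.CF Pool.Agent.H31.CF

/-- the weight of `m` at a vector, level `f` -/
noncomputable def gw (f m : ℕ) (Q : QF) (v : ℤ × ℤ) : ℝ :=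
  Vk (val Q v / (m * f * Real.sqrt (dsc Q))) * nu m Q v / Real.sqrt (val Q v)

/-- the weight of `m` at the vectors `(e, 0)` with the coprimality condition -/
noncomputable def gwc (f m : ℕ) (Q : QF) (e : ℕ) : ℝ :=
  if Nat.Coprime (e * Q.1.toNat) f then gw f m Q ((e : ℤ), 0) else 0

theorem gw_zero (f m : ℕ) (Q : QF) : gw f m Q 0 = 0 := by
  have : val Q 0 = 0 := by simp [val]
  unfold gw
  rw [this]
  simp

theorem gw_act (hNUI : T_NUI) (hACT : T_ACT) (f m : ℕ) (Q : QF) (g : SL(2, ℤ)) (v : ℤ × ℤ) :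
    gw f m (act Q g) v = gw f m Q (gv g v) := by
  obtain ⟨h1, h2, _⟩ := hACT Q g g v
  unfold gw
  rw [h1, h2, nu_act hNUI]

theorem gw_bound {f Δ m : ℕ} {C : ℝ} (hC : 0 < C) (hf : 1 ≤ f) (hΔ : 0 < Δ) (hm : 1 ≤ m)
    (hACT : T_ACT) (hV : ∀ x : ℝ, 0 < x → |Vk x| ≤ C * Real.exp (-(6 * x))) {Q : QF}
    (hQ : Q ∈ FD Δ) {v : ℤ × ℤ} (hv : v ≠ 0) :
    |gw f m Q v| ≤ (C * ((∏ p ∈ m.primeFactors, (p + 1) : ℕ) : ℝ)) *
      Real.exp (-(6 / (m * f * Real.sqrt Δ) * val Q v)) := by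
  obtain ⟨_, _, _, _, _, h6⟩ := hACT Q 1 1 v
  have hval : 0 < val Q v := (h6 Δ hΔ hQ).2 hv
  have hval1 : (1 : ℝ) ≤ val Q v := by exact_mod_cast hval
  have hD : ((dsc Q : ℤ) : ℝ) = Δ := by rw [hQ.2]; simp
  have hsD : 0 < Real.sqrt Δ := Real.sqrt_pos.2 (by exact_mod_cast hΔ)
  have hm0 : (0 : ℝ) < m := by exact_mod_cast hm
  have hf0 : (0 : ℝ) < f := by exact_mod_cast hf
  unfold gw
  rw [hD, abs_div, abs_mul, abs_of_nonneg (Real.sqrt_nonneg ((val Q v : ℤ) : ℝ)),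
    Nat.abs_cast]
  have h1 : |Vk (val Q v / (m * f * Real.sqrt Δ))| ≤ C * Real.exp (-(6 / (m * f * Real.sqrt Δ) *
      val Q v)) := by
    refine (hV _ (by positivity)).trans (le_of_eq ?_)
    congr 2
    ring
  have h2 : (1 : ℝ) ≤ Real.sqrt (val Q v) := by
    rw [Real.one_le_sqrt]; exact hval1
  refine div_le_of_le_mul₀ (Real.sqrt_nonneg _) (by positivity) ?_
  calc |Vk (val Q v / (m * f * Real.sqrt Δ))| * (nu m Q v : ℝ)
      ≤ (C * Real.exp (-(6 / (m * f * Real.sqrt Δ) * val Q v))) *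
        ((∏ p ∈ m.primeFactors, (p + 1) : ℕ) : ℝ) :=
        mul_le_mul h1 (nu_le m Q v) (Nat.cast_nonneg _) (by positivity)
    _ = (C * ((∏ p ∈ m.primeFactors, (p + 1) : ℕ) : ℝ)) *
      Real.exp (-(6 / (m * f * Real.sqrt Δ) * val Q v)) * 1 := by ring
    _ ≤ _ := mul_le_mul_of_nonneg_left h2 (by positivity)

theorem om_eq (f : ℕ) (S : Finset ℕ) (c : ℕ → ℝ) (Q : QF) (v : ℤ × ℤ) :
    om S c f Q v = ∑ m ∈ S, c m * gw f m Q v := by
  unfold om
  rw [Finset.sum_div]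
  refine Finset.sum_congr rfl fun m _ => ?_
  unfold gw
  ring

/-- the truncated kernel -/
noncomputable def hk (f Δ M₀ : ℕ) (x : ℝ) : ℝ :=
  if x < 1 / (M₀ : ℝ) then 0 else Vk (x / (f * Real.sqrt Δ)) / Real.sqrt x

/-- the sum of the truncated kernel -/
noncomputable def zk (f Δ M₀ : ℕ) (R : QF) : ℝ :=
  ∑' v : ℤ × ℤ, if v = 0 then 0 else hk f Δ M₀ (val R v) * kern f R (1, 0) v

section
variable {f Δ : ℕ}

theorem hk_bound {M₀ : ℕ} (hM : 1 ≤ M₀) (hf : 1 ≤ f) (hΔ : 0 < Δ) {C : ℝ} (hC : 0 < C)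
    (hV : ∀ x : ℝ, 0 < x → |Vk x| ≤ C * Real.exp (-(6 * x))) (x : ℝ) (hx : 0 < x) :
    |hk f Δ M₀ x| ≤ (C * Real.sqrt M₀) * Real.exp (-(6 / (f * Real.sqrt Δ) * x)) := by
  have hsD : 0 < Real.sqrt Δ := Real.sqrt_pos.2 (by exact_mod_cast hΔ)
  have hM0 : (0 : ℝ) < M₀ := by exact_mod_cast hM
  have hf0 : (0 : ℝ) < f := by exact_mod_cast hf
  unfold hk
  split_ifs with h
  · rw [abs_zero]; positivity
  · rw [not_lt] at h
    rw [abs_div, abs_of_nonneg (Real.sqrt_nonneg x)]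
    have h1 : |Vk (x / (f * Real.sqrt Δ))| ≤ C * Real.exp (-(6 / (f * Real.sqrt Δ) * x)) := by
      refine (hV _ (by positivity)).trans (le_of_eq ?_)
      congr 2
      ring
    have h2 : 1 ≤ Real.sqrt M₀ * Real.sqrt x := by
      rw [← Real.sqrt_mul hM0.le, Real.one_le_sqrt]
      rw [div_le_iff₀ hM0] at h
      linarith
    refine div_le_of_le_mul₀ (Real.sqrt_nonneg _) (by positivity) ?_
    calc |Vk (x / (f * Real.sqrt Δ))| ≤ C * Real.exp (-(6 / (f * Real.sqrt Δ) * x)) * 1 := by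
          rw [mul_one]; exact h1
      _ ≤ C * Real.exp (-(6 / (f * Real.sqrt Δ) * x)) * (Real.sqrt M₀ * Real.sqrt x) :=
          mul_le_mul_of_nonneg_left h2 (by positivity)
      _ = _ := by ring

theorem gw_sum {m M₀ : ℕ} (hf : 1 ≤ f) (hΔ : 0 < Δ) (hm : Squarefree m) (hmM : m ≤ M₀)
    (hmf : Nat.Coprime m f) (hVK : T_VK) (hACT : T_ACT) (hKIN : T_KIN) (hHKG : T_HKG)
    (hKST : T_KST) {R : QF} (hR : R ∈ FD Δ) :
    ∑' v, gw f m R v * kern f R (1, 0) v =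
      1 / Real.sqrt m * TL m.primeFactorsList (zk f Δ M₀) R := by
  obtain ⟨C, hC, hV, -, -, -⟩ := hVK
  have hsD : 0 < Real.sqrt Δ := Real.sqrt_pos.2 (by exact_mod_cast hΔ)
  have hm1 : 1 ≤ m := Nat.one_le_iff_ne_zero.2 hm.ne_zero
  have hm0 : (0 : ℝ) < m := by exact_mod_cast hm1
  have hM1 : 1 ≤ M₀ := hm1.trans hmM
  have hM0 : (0 : ℝ) < M₀ := by exact_mod_cast hM1
  have hf0 : (0 : ℝ) < f := by exact_mod_cast hf
  have key := hHKG Δ (C * Real.sqrt M₀) (6 / (f * Real.sqrt Δ)) (hk f Δ M₀)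
    (fun R v => kern f R (1, 0) v) m.primeFactorsList hΔ
    (by positivity) (hk_bound hM1 hf hΔ hC hV) (fun Q v => (hKIN f Q (1, 0) v hf).2.2.1)
    ((Nat.squarefree_iff_nodup_primeFactorsList hm.ne_zero).1 hm)
    (fun p hp => Nat.prime_of_mem_primeFactorsList hp)
    (fun p hp Q _ v => hKST f p Q v hf (Nat.prime_of_mem_primeFactorsList hp)
      (Nat.Coprime.coprime_dvd_left (Nat.dvd_of_mem_primeFactorsList hp) hmf)) R hR
  have e1 : (fun R => ∑' v : ℤ × ℤ, if v = 0 then 0 else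
      hk f Δ M₀ (val R v) * kern f R (1, 0) v) = zk f Δ M₀ := rfl
  rw [e1] at key
  rw [← key, ← tsum_mul_left]
  refine tsum_congr fun v => ?_
  rw [nu_list hm, Nat.prod_primeFactorsList hm.ne_zero]
  by_cases hv : v = 0
  · rw [if_pos hv, hv, gw_zero, mul_zero, zero_mul]
  · rw [if_neg hv]
    have hval := val_pos' hΔ hACT hR hv
    have hD : ((dsc R : ℤ) : ℝ) = Δ := by rw [hR.2]; simp
    unfold hk gw
    rw [if_neg (by
      rw [not_lt, div_le_div_iff₀ hM0 hm0]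
      have : (m : ℝ) ≤ M₀ := by exact_mod_cast hmM
      nlinarith), hD]
    have h3 : (val R v : ℝ) / m / (f * Real.sqrt Δ) = val R v / (m * f * Real.sqrt Δ) := by
      rw [div_div, mul_assoc]
    rw [h3, Real.sqrt_div (by linarith)]
    have h4 : Real.sqrt m ≠ 0 := (Real.sqrt_pos.2 hm0).ne'
    have h5 : Real.sqrt (val R v) ≠ 0 := (Real.sqrt_pos.2 (by linarith)).ne'
    field_simp

theorem zk_eq {M₀ : ℕ} (hΔ : 0 < Δ) (hM : 1 ≤ M₀) (hACT : T_ACT) {R : QF}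
    (hR : R ∈ FD Δ) : zk f Δ M₀ R = F1 f R := by
  have hM0 : (0 : ℝ) < M₀ := by exact_mod_cast hM
  have hD : ((dsc R : ℤ) : ℝ) = Δ := by rw [hR.2]; simp
  unfold zk F1
  refine tsum_congr fun v => ?_
  rw [hD]
  by_cases hv : v = 0
  · have : val R 0 = 0 := by simp [val]
    rw [if_pos hv, hv, this]
    simp
  · rw [if_neg hv]
    have hval := val_pos' hΔ hACT hR hv
    unfold hk
    rw [if_neg]
    rw [not_lt]
    have : 1 / (M₀ : ℝ) ≤ 1 := by
      rw [div_le_one hM0]; exact_mod_cast hM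
    linarith

theorem zk_inv {M₀ : ℕ} (hf : 1 ≤ f) (hACT : T_ACT) (hKIN : T_KIN) (R : QF) :
    zk f Δ M₀ (act R tr1) = zk f Δ M₀ R := by
  have e1 : zk f Δ M₀ R = ∑' v : ℤ × ℤ, if gv tr1 v = 0 then 0 else
      hk f Δ M₀ (val R (gv tr1 v)) * kern f R (1, 0) (gv tr1 v) :=
    ((Pool.Agent.H56.CN.gvE hACT tr1).tsum_eq (fun v : ℤ × ℤ => if v = 0 then 0 else
      hk f Δ M₀ (val R v) * kern f R (1, 0) v)).symm
  rw [e1]
  unfold zk
  refine tsum_congr fun v => ?_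
  have h0 : gv tr1 v = 0 ↔ v = 0 := by
    constructor
    · intro h
      have := Pool.Agent.H56.CN.inv_gv hACT tr1 v
      rw [h, Pool.Agent.H56.CN.gv_zero] at this
      exact this.symm
    · intro h
      rw [h, Pool.Agent.H56.CN.gv_zero]
  have h1 : val (act R tr1) v = val R (gv tr1 v) := (hACT R tr1 1 v).1
  have h2 := (hKIN f R (1, 0) v hf).1 tr1
  rw [gv_tr1] at h2
  simp only [h0, h1, h2]

theorem fp_zk {M₀ : ℕ} (hf : 1 ≤ f) (hΔ : 0 < Δ) (hM : 1 ≤ M₀) (hVK : T_VK) (hVGR : T_VGR)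
    (hACT : T_ACT) (hKIN : T_KIN) : FP Δ (zk f Δ M₀) := by
  constructor
  · intro R hR
    rw [← act_tr1]
    exact zk_inv hf hACT hKIN R
  · obtain ⟨C, hC, hV, -, -, -⟩ := hVK
    have hsD : 0 < Real.sqrt Δ := Real.sqrt_pos.2 (by exact_mod_cast hΔ)
    have hf0 : (0 : ℝ) < f := by exact_mod_cast hf
    obtain ⟨K, hK⟩ := hVGR Δ (6 / (f * Real.sqrt Δ)) hΔ (by positivity)
    refine ⟨(C * Real.sqrt M₀) * K, 1, fun R hR => ?_⟩
    obtain ⟨h1, h2⟩ := hK R hR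
    have hb : ∀ v : ℤ × ℤ, ‖if v = 0 then 0 else hk f Δ M₀ (val R v) * kern f R (1, 0) v‖ ≤
        (C * Real.sqrt M₀) * Real.exp (-(6 / (f * Real.sqrt Δ) * val R v)) := by
      intro v
      rw [Real.norm_eq_abs]
      by_cases hv : v = 0
      · rw [if_pos hv, abs_zero]; positivity
      · rw [if_neg hv, abs_mul]
        have h3 := hk_bound hM hf hΔ hC hV (val R v) (by linarith [val_pos' hΔ hACT hR hv])
        have h4 := (hKIN f R (1, 0) v hf).2.2.1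
        calc |hk f Δ M₀ (val R v)| * |kern f R (1, 0) v| ≤ |hk f Δ M₀ (val R v)| * 1 :=
              mul_le_mul_of_nonneg_left h4 (abs_nonneg _)
          _ ≤ _ := by rw [mul_one]; exact h3
    have h3 := tsum_of_norm_bounded (h1.mul_left (C * Real.sqrt M₀)).hasSum hb
    rw [Real.norm_eq_abs, tsum_mul_left] at h3
    unfold zk
    refine h3.trans ?_
    have h4 := mul_le_mul_of_nonneg_left h2 (show (0 : ℝ) ≤ C * Real.sqrt M₀ by positivity)
    rw [pow_one]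
    linarith [h4, mul_assoc (C * Real.sqrt M₀) K (1 + (R.1 : ℝ))]

theorem wp_gwc {m : ℕ} (hf : 1 ≤ f) (hΔ : 0 < Δ) (hm : 1 ≤ m) (hVK : T_VK) (hNUI : T_NUI)
    (hACT : T_ACT) : WP Δ (gwc f m) := by
  refine ⟨fun R _ => ?_, fun R hR e => ?_, ?_⟩
  · have : (((0 : ℕ) : ℤ), (0 : ℤ)) = (0 : ℤ × ℤ) := rfl
    unfold gwc
    rw [this, gw_zero]
    simp
  · rw [← act_tr1]
    unfold gwc
    rw [gw_act hNUI hACT, gv_tr1, act_tr1]
  · obtain ⟨C, hC, hV, -, -, -⟩ := hVK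
    have hsD : 0 < Real.sqrt Δ := Real.sqrt_pos.2 (by exact_mod_cast hΔ)
    have hm0 : (0 : ℝ) < m := by exact_mod_cast hm
    have hf0 : (0 : ℝ) < f := by exact_mod_cast hf
    refine ⟨C * ((∏ p ∈ m.primeFactors, (p + 1) : ℕ) : ℝ), 6 / (m * f * Real.sqrt Δ),
      by positivity, fun R hR e => ?_⟩
    unfold gwc
    split_ifs with hcop
    · rcases Nat.eq_zero_or_pos e with rfl | he
      · have : (((0 : ℕ) : ℤ), (0 : ℤ)) = (0 : ℤ × ℤ) := rfl
        rw [this, gw_zero, abs_zero]; positivity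
      · have hne : (((e : ℕ) : ℤ), (0 : ℤ)) ≠ (0 : ℤ × ℤ) := by
          intro h
          have := congrArg Prod.fst h
          simp at this
          omega
        refine (gw_bound hC hf hΔ hm hACT hV hR hne).trans (le_of_eq ?_)
        rw [val_e0]
        push_cast
        congr 2
        ring
    · rw [abs_zero]; positivity

theorem US_pairc {m₁ m₂ M₀ : ℕ} (hf : 1 ≤ f) (hΔ : 0 < Δ) (h1 : Squarefree m₁)
    (h2 : Squarefree m₂) (hmf : Nat.Coprime m₂ f)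
    (hM : 1 ≤ M₀) (hADJ : T_ADJ) (hTPB : T_TPB) (hNUI : T_NUI) (hWCC : T_WCC) (hWC : T_WC)
    (hVK : T_VK) (hVGR : T_VGR) (hACT : T_ACT) (hKIN : T_KIN) :
    US Δ (gwc f m₁) (TL m₂.primeFactorsList (zk f Δ M₀)) =
      Real.sqrt m₂ * U0 m₁ m₂ f Δ := by
  have hsD : 0 < Real.sqrt Δ := Real.sqrt_pos.2 (by exact_mod_cast hΔ)
  have hm1 : 1 ≤ m₁ := Nat.one_le_iff_ne_zero.2 h1.ne_zero
  have hm2 : 1 ≤ m₂ := Nat.one_le_iff_ne_zero.2 h2.ne_zero
  have hm10 : (0 : ℝ) < m₁ := by exact_mod_cast hm1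
  have hm20 : (0 : ℝ) < m₂ := by exact_mod_cast hm2
  have hf0 : (0 : ℝ) < f := by exact_mod_cast hf
  have hl : ∀ p ∈ m₂.primeFactorsList, p.Prime := fun p hp =>
    Nat.prime_of_mem_primeFactorsList hp
  have hl2 : ∀ p ∈ m₂.primeFactorsList, p.Prime ∧ Nat.Coprime p f := fun p hp =>
    ⟨hl p hp, Nat.Coprime.coprime_dvd_left (Nat.dvd_of_mem_primeFactorsList hp) hmf⟩
  obtain ⟨k1, k2⟩ := US_TL hADJ hTPB hΔ (fp_zk (M₀ := M₀) hf hΔ hM hVK hVGR hACT hKIN)
    m₂.primeFactorsList hl (wp_gwc hf hΔ hm1 hVK hNUI hACT)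
  rw [k1, US_tsum]
  unfold U0
  rw [US_tsum, ← tsum_mul_left]
  refine tsum_congr fun p => ?_
  obtain ⟨e, A⟩ := p
  unfold UT
  rw [Finset.mul_sum]
  refine Finset.sum_congr rfl fun B hB => ?_
  obtain ⟨hA, hd⟩ := mem_rng hB
  have hA' : 1 ≤ A := hA
  have hd' : 4 * A ∣ B ^ 2 + Δ := hd
  have hQ := qf3_mem hA' hd'
  have hQ1 : 0 < (qf3 Δ A B).1 := hQ.1
  rw [zk_eq hΔ hM hACT hQ, ← mul_assoc]
  congr 1
  rcases Nat.eq_zero_or_pos e with rfl | he
  · rw [k2.zero _ hQ]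
    unfold wU
    have h0 : Real.sqrt (((0 : ℕ) : ℝ) ^ 2 * (((qf3 Δ A B).1 : ℤ) : ℝ)) = 0 := by simp
    rw [h0]
    simp
  · have hcc := hWCC f (fun R e => if e = 0 then 0 else
        (fun x => Vk (x / (m₁ * f * Real.sqrt Δ)) / Real.sqrt x) ((e : ℝ) ^ 2 * R.1) *
        ((∏ p ∈ m₁.primeFactors, N1 p R.1.toNat R.2.1 R.2.2 e : ℕ) : ℝ)) m₂.primeFactorsList
      hf hl2 (qf3 Δ A B) e hQ1 he
    have hw := hWC Δ m₁ m₂ (fun x => Vk (x / (m₁ * f * Real.sqrt Δ)) / Real.sqrt x) hΔ h1 h2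
      (qf3 Δ A B) hQ e he
    have hcg := WL_congr (Δ := Δ) m₂.primeFactorsList hl
      (ω := gwc f m₁)
      (ω' := fun R e => if Nat.Coprime (e * R.1.toNat) f then (fun (R : QF) (e : ℕ) => if e = 0 then 0 else
        (fun x => Vk (x / (m₁ * f * Real.sqrt Δ)) / Real.sqrt x) ((e : ℝ) ^ 2 * R.1) *
        ((∏ p ∈ m₁.primeFactors, N1 p R.1.toNat R.2.1 R.2.2 e : ℕ) : ℝ)) R e else 0) (by
        intro R hR e
        unfold gwc
        split_ifs with hcop
        · simp only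
          rcases Nat.eq_zero_or_pos e with rfl | he
          · rw [if_pos rfl]
            have : (((0 : ℕ) : ℤ), (0 : ℤ)) = (0 : ℤ × ℤ) := rfl
            rw [this, gw_zero]
          · rw [if_neg (by omega)]
            unfold gw
            have hD : ((dsc R : ℤ) : ℝ) = Δ := by rw [hR.2]; simp
            have hnu : nu m₁ R ((e : ℤ), 0) =
                ∏ p ∈ m₁.primeFactors, N1 p R.1.toNat R.2.1 R.2.2 e :=
              Finset.prod_congr rfl fun p hp =>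
                nul_e0 (Nat.prime_of_mem_primeFactors hp) hR e
            rw [hnu, hD, val_e0]
            have : (((R.1 * (e : ℤ) ^ 2 : ℤ)) : ℝ) = (e : ℝ) ^ 2 * R.1 := by push_cast; ring
            rw [this]
            ring
        · rfl) (qf3 Δ A B) hQ e
    rw [hcg, hcc, hw]
    unfold wU
    split_ifs with hcop
    · have e1 : ((qf3 Δ A B).1 : ℝ) = (A : ℝ) := by simp [qf3]
      rw [e1]
      simp only
      have hx : (0 : ℝ) < (e : ℝ) ^ 2 * A := by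
        have : (0 : ℝ) < e := by exact_mod_cast he
        have : (0 : ℝ) < A := by exact_mod_cast hA'
        positivity
      have e5 : (e : ℝ) ^ 2 * A / m₂ / (m₁ * f * Real.sqrt Δ) =
          (e : ℝ) ^ 2 * A / ((m₁ : ℝ) * m₂ * (f * Real.sqrt Δ)) := by
        rw [div_div]; congr 1; ring
      rw [e5, Real.sqrt_div hx.le]
      have h4 : Real.sqrt m₂ ≠ 0 := (Real.sqrt_pos.2 hm20).ne'
      have h5 : Real.sqrt ((e : ℝ) ^ 2 * A) ≠ 0 := (Real.sqrt_pos.2 hx).ne'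
      field_simp
    · rw [mul_zero]

end

theorem gw_summable {f Δ m : ℕ} (hf : 1 ≤ f) (hΔ : 0 < Δ) (hm : 1 ≤ m) (hVK : T_VK)
    (hVGR : T_VGR) (hACT : T_ACT) {R : QF} (hR : R ∈ FD Δ) :
    Summable fun v => |gw f m R v| := by
  obtain ⟨C, hC, hV, -, -, -⟩ := hVK
  have hsD : 0 < Real.sqrt Δ := Real.sqrt_pos.2 (by exact_mod_cast hΔ)
  have hm0 : (0 : ℝ) < m := by exact_mod_cast hm
  have hf0 : (0 : ℝ) < f := by exact_mod_cast hf
  obtain ⟨K, hK⟩ := hVGR Δ (6 / (m * f * Real.sqrt Δ)) hΔ (by positivity)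
  refine Summable.of_nonneg_of_le (fun v => abs_nonneg _) (fun v => ?_) ((hK R hR).1.mul_left
    (C * ((∏ p ∈ m.primeFactors, (p + 1) : ℕ) : ℝ)))
  by_cases hv : v = 0
  · rw [hv, gw_zero, abs_zero]; positivity
  · exact gw_bound hC hf hΔ hm hACT hV hR hv

theorem US_congr2 {Δ : ℕ} {ω ω' : QF → ℕ → ℝ} {F F' : QF → ℝ}
    (h : ∀ Q ∈ FD Δ, ∀ e, ω Q e * F Q = ω' Q e * F' Q) : US Δ ω F = US Δ ω' F' := by
  rw [US_tsum, US_tsum]
  refine tsum_congr fun p => ?_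
  unfold UT
  refine Finset.sum_congr rfl fun B hB => ?_
  obtain ⟨hA, hd⟩ := mem_rng hB
  exact h _ (qf3_mem hA hd) _

theorem pf_UNA (hORW : T_ORW) (hPOS : T_POS) (hKIN : T_KIN) (hADJ : T_ADJ) (hTPB : T_TPB)
    (hNUI : T_NUI) (hHKG : T_HKG) (hKST : T_KST) (hWCC : T_WCC) (hWC : T_WC) (hVK : T_VK)
    (hVGR : T_VGR) (hACT : T_ACT) : T_UNA := by
  intro f Δ hf hΔ S c hS ι _ Q hQ hE
  have hVK' := hVK
  obtain ⟨C, hC, hV, -, -, -⟩ := hVK'
  have hsD : 0 < Real.sqrt Δ := Real.sqrt_pos.2 (by exact_mod_cast hΔ)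
  have hf0 : (0 : ℝ) < f := by exact_mod_cast hf
  set M₀ : ℕ := ∑ m ∈ S, m + 1 with hM₀
  have hM1 : 1 ≤ M₀ := by omega
  have hM0 : (0 : ℝ) < M₀ := by exact_mod_cast hM1
  have hmM : ∀ m ∈ S, m ≤ M₀ := fun m hm => by
    have : m ≤ ∑ x ∈ S, x :=
      Finset.single_le_sum (f := fun m : ℕ => m) (fun _ _ => Nat.zero_le _) hm
    omega
  have hm1 : ∀ m ∈ S, 1 ≤ m := fun m hm => Nat.one_le_iff_ne_zero.2 (hS m hm).1.ne_zero
  -- the weight
  obtain ⟨w, hw⟩ : ∃ w : QF → ℤ × ℤ → ℝ, w = fun R v =>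
    om S c f R v * ∑' v' : ℤ × ℤ, om S c f R v' * kern f R v v' := ⟨_, rfl⟩
  have homz : ∀ R : QF, om S c f R 0 = 0 := fun R => by
    rw [om_eq]
    exact Finset.sum_eq_zero fun m _ => by rw [gw_zero, mul_zero]
  have hact : ∀ (R : QF) (g : SL(2, ℤ)) (v : ℤ × ℤ),
      om S c f (act R g) v = om S c f R (gv g v) := fun R g v => by
    rw [om_eq, om_eq]
    exact Finset.sum_congr rfl fun m _ => by rw [gw_act hNUI hACT]
  set c₀ : ℝ := 6 / (M₀ * f * Real.sqrt Δ) with hc₀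
  have hc₀' : 0 < c₀ := by positivity
  set K₁ : ℝ := ∑ m ∈ S, |c m| * (C * ((∏ p ∈ m.primeFactors, (p + 1) : ℕ) : ℝ)) with hK₁
  have hK₁' : 0 ≤ K₁ := Finset.sum_nonneg fun m _ => by positivity
  have hb : ∀ R ∈ FD Δ, ∀ v, |om S c f R v| ≤ K₁ * Real.exp (-(c₀ * val R v)) := by
    intro R hR v
    by_cases hv : v = 0
    · rw [hv, homz, abs_zero]
      positivity
    rw [om_eq, hK₁, Finset.sum_mul]
    refine (Finset.abs_sum_le_sum_abs _ _).trans (Finset.sum_le_sum fun m hm => ?_)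
    rw [abs_mul, mul_assoc]
    refine mul_le_mul_of_nonneg_left ?_ (abs_nonneg _)
    refine (gw_bound hC hf hΔ (hm1 m hm) hACT hV hR hv).trans ?_
    refine mul_le_mul_of_nonneg_left (Real.exp_le_exp.2 ?_) (by positivity)
    have hval := val_pos' hΔ hACT hR hv
    have hm0 : (0 : ℝ) < m := by exact_mod_cast hm1 m hm
    have hmm : (m : ℝ) ≤ M₀ := by exact_mod_cast hmM m hm
    apply neg_le_neg
    refine mul_le_mul_of_nonneg_right ?_ (by linarith)
    exact div_le_div_of_nonneg_left (by norm_num) (by positivity)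
      (mul_le_mul_of_nonneg_right (mul_le_mul_of_nonneg_right hmm hf0.le) hsD.le)
  obtain ⟨K₂, hK₂⟩ := hVGR Δ c₀ hΔ hc₀'
  have hsum : ∀ R ∈ FD Δ, Summable fun v => |om S c f R v| := fun R hR =>
    Summable.of_nonneg_of_le (fun v => abs_nonneg _) (fun v => hb R hR v)
      ((hK₂ R hR).1.mul_left K₁)
  have hinner : ∀ R ∈ FD Δ, ∀ v : ℤ × ℤ, |∑' v' : ℤ × ℤ, om S c f R v' * kern f R v v'| ≤
      (K₁ * K₂) * (1 + (R.1 : ℝ)) := by
    intro R hR v
    have h1 : ‖∑' v' : ℤ × ℤ, om S c f R v' * kern f R v v'‖ ≤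
        ∑' v' : ℤ × ℤ, K₁ * Real.exp (-(c₀ * val R v')) := by
      refine tsum_of_norm_bounded ((hK₂ R hR).1.mul_left K₁).hasSum fun v' => ?_
      rw [Real.norm_eq_abs, abs_mul]
      have h4 := (hKIN f R v v' hf).2.2.1
      calc |om S c f R v'| * |kern f R v v'| ≤ |om S c f R v'| * 1 :=
            mul_le_mul_of_nonneg_left h4 (abs_nonneg _)
        _ ≤ _ := by rw [mul_one]; exact hb R hR v'
    rw [tsum_mul_left] at h1
    refine h1.trans ?_
    rw [mul_assoc]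
    exact mul_le_mul_of_nonneg_left (hK₂ R hR).2 hK₁'
  have hwb : ∀ R ∈ FD Δ, ∀ v, v ≠ 0 → |w R v| ≤ (K₁ * (K₁ * K₂)) * (1 + (R.1 : ℝ)) ^ 1 *
      Real.exp (-(c₀ * val R v)) := by
    intro R hR v _
    rw [hw]
    simp only
    rw [abs_mul]
    calc |om S c f R v| * |∑' v' : ℤ × ℤ, om S c f R v' * kern f R v v'| ≤
        (K₁ * Real.exp (-(c₀ * val R v))) * ((K₁ * K₂) * (1 + (R.1 : ℝ))) :=
          mul_le_mul (hb R hR v) (hinner R hR v) (abs_nonneg _) (by positivity)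
      _ = _ := by ring
  have h1 := hORW Δ 1 (K₁ * (K₁ * K₂)) c₀ w hΔ hc₀'
    (fun R _ => by rw [hw]; simp only [homz, zero_mul])
    (fun R _ g v => by
      rw [hw]
      simp only
      rw [hact]
      congr 1
      rw [← (Pool.Agent.H56.CN.gvE hACT g).tsum_eq
        (fun v' : ℤ × ℤ => om S c f R v' * kern f R (gv g v) v')]
      refine tsum_congr fun v' => ?_
      rw [hact, (hKIN f R v v' hf).1 g]
      rfl)
    hwb
    (fun R hR => by
      rw [hw]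
      exact (hPOS f R (om S c f R) hf (hsum R hR)).2.2.1)
    ι Q hQ hE
  have h2 : ∀ i, SQ f S c (Q i) = ∑' v, w (Q i) v := by
    intro i
    rw [hw]
    exact (hPOS f (Q i) (om S c f (Q i)) hf (hsum _ (hQ i))).2.2.2
  rw [Finset.sum_congr rfl fun i _ => h2 i]
  refine h1.trans (le_of_eq ?_)
  congr 1
  -- evaluate
  have h3 : US Δ (fun R e => w R ((e : ℤ), 0)) (fun _ => 1) =
      US Δ (fun R e => ∑ m ∈ S, c m * gwc f m R e)
        (fun R => ∑ m ∈ S, (c m * (1 / Real.sqrt m)) *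
          TL m.primeFactorsList (zk f Δ M₀) R) := by
    refine US_congr2 fun R hR e => ?_
    have hZ : ∑' v' : ℤ × ℤ, om S c f R v' * kern f R (1, 0) v' =
        ∑ m ∈ S, (c m * (1 / Real.sqrt m)) * TL m.primeFactorsList (zk f Δ M₀) R := by
      have e1 : ∀ v' : ℤ × ℤ, om S c f R v' * kern f R (1, 0) v' =
          ∑ m ∈ S, c m * (gw f m R v' * kern f R (1, 0) v') := by
        intro v'
        rw [om_eq, Finset.sum_mul]
        exact Finset.sum_congr rfl fun m _ => by ring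
      simp_rw [e1]
      rw [Summable.tsum_finsetSum]
      · refine Finset.sum_congr rfl fun m hm => ?_
        rw [tsum_mul_left, gw_sum hf hΔ (hS m hm).1 (hmM m hm) (hS m hm).2 hVK hACT hKIN hHKG
          hKST hR, mul_assoc]
      · intro m hm
        refine Summable.mul_left _ (Summable.of_norm_bounded
          (gw_summable hf hΔ (hm1 m hm) hVK hVGR hACT hR) fun v' => ?_)
        rw [Real.norm_eq_abs, abs_mul]
        calc |gw f m R v'| * |kern f R (1, 0) v'| ≤ |gw f m R v'| * 1 :=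
              mul_le_mul_of_nonneg_left (hKIN f R (1, 0) v' hf).2.2.1 (abs_nonneg _)
          _ = _ := mul_one _
    rw [hw, mul_one, ← hZ]
    simp only
    have e2 : ∀ v' : ℤ × ℤ, kern f R ((e : ℤ), 0) v' =
        if Nat.Coprime e f then kern f R (1, 0) v' else 0 := fun v' =>
      (hKIN f R (1, 0) v' hf).2.2.2.1 e
    by_cases hcop : Nat.Coprime (e * R.1.toNat) f
    · have hce : Nat.Coprime e f := Nat.Coprime.coprime_dvd_left (Dvd.intro _ rfl) hcop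
      simp_rw [e2, if_pos hce]
      congr 1
      rw [om_eq]
      refine Finset.sum_congr rfl fun m _ => ?_
      unfold gwc
      rw [if_pos hcop]
    · have e3 : ∑ m ∈ S, c m * gwc f m R e = 0 := by
        refine Finset.sum_eq_zero fun m _ => ?_
        unfold gwc
        rw [if_neg hcop, mul_zero]
      rw [e3, zero_mul]
      have e4 : ∀ v' : ℤ × ℤ, kern f R ((e : ℤ), 0) v' = 0 := by
        intro v'
        rw [e2]
        split_ifs with hce
        · apply (hKIN f R (1, 0) v' hf).2.2.2.2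
          intro hg
          apply hcop
          have hA : ((R.1.toNat : ℕ) : ℤ) = R.1 := Int.toNat_of_nonneg hR.1.le
          have : Nat.Coprime R.1.toNat f := by
            rw [← hA, Int.gcd_natCast_natCast] at hg
            exact hg
          exact hce.mul_left this
        · rfl
      simp only [e4, mul_zero, tsum_zero]
  rw [h3, US_bilin Δ S S c (fun m => c m * (1 / Real.sqrt m))
    (fun m => gwc f m) (fun m => TL m.primeFactorsList (zk f Δ M₀))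
    (fun i hi j hj => (wp_gwc hf hΔ (hm1 i hi) hVK hNUI hACT).summable
      (FP.tl hTPB hΔ (fp_zk hf hΔ hM1 hVK hVGR hACT hKIN) _
        (fun p hp => Nat.prime_of_mem_primeFactorsList hp)))]
  refine Finset.sum_congr rfl fun m₁ hm₁ => Finset.sum_congr rfl fun m₂ hm₂ => ?_
  rw [US_pairc hf hΔ (hS m₁ hm₁).1 (hS m₂ hm₂).1 (hS m₂ hm₂).2 hM1 hADJ hTPB hNUI hWCC hWC hVK
    hVGR hACT hKIN]
  have h5 : Real.sqrt m₂ ≠ 0 := (Real.sqrt_pos.2 (by exact_mod_cast hm1 m₂ hm₂)).ne'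
  field_simp

end Pool.Agent.H31.CFU
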