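import Pool.Agent.H31.CF.U3
import Pool.Agent.H31.CF.U4
import Pool.Agent.H31.CF.UUNA
import Pool.Agent.H31.CN.FinA
import Pool.Agent.H32.CF.UAVF
import Pool.Agent.H40.CF.UCFI
import Pool.Agent.H81.CF.UFF1
import Pool.Agent.H14.CF.UGRL
import Pool.Agent.H99.CF.UGRM
import Pool.Agent.H69.CF.UHKG
import Pool.Agent.H17.CF.UKID
import Pool.Agent.H14.CF.UKIN
import Pool.Agent.H27.CF.UKPR
import Pool.Agent.H74.CF.UKSM
import Pool.Agent.H13.CF.UKST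
import Pool.Agent.H80.CF.ULVL
import Pool.Agent.H27.CF.UMNF
import Pool.Agent.H60.CF.UMNS
import Pool.Agent.H73.CF.UNPQ
import Pool.Agent.H37.CF.UNWS
import Pool.Agent.H10.CF.UORW
import Pool.Agent.H40.CF.UPOS
import Pool.Agent.H34.CF.USL1
import Pool.Agent.H99.CF.USL2
import Pool.Agent.H20.CF.UUNB
import Pool.Agent.H20.CF.UUSL
import Pool.Agent.H17.CF.UUSZ
import Pool.Agent.H80.CF.UWBS
import Pool.Agent.H68.CF.UWCC
import Pool.Agent.H83.CF.UWDS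

/-!
# Complete family (MP_347b49_nt), part U: assembly
-/

set_option autoImplicit false

namespace Pool.Agent.H31.CFU

open Pool.Agent.H31.CN Pool.Agent.H91.CF Pool.Agent.H31.CF Pool.Agent.H31.CN.Fin

theorem u_KIN : T_KIN := Pool.Agent.H14.CFU.pf_KIN c_ACT c_NUI

theorem u_GRM : T_GRM := Pool.Agent.H99.CFU.pf_GRM Pool.Agent.H14.CFU.pf_GRL

theorem u_POS : T_POS := Pool.Agent.H40.CFU.pf_POS u_KIN u_GRM

theorem u_ORW : T_ORW := Pool.Agent.H10.CFU.pf_ORW c_ACT c_VGR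

theorem u_HKG : T_HKG := Pool.Agent.H69.CFU.pf_HKG c_HK1 c_HK2 c_HK3 c_ACT

theorem u_KST : T_KST := Pool.Agent.H13.CFU.pf_KST c_HK2

theorem u_WCC : T_WCC := Pool.Agent.H68.CFU.pf_WCC

theorem u_UNA : T_UNA :=
  pf_UNA u_ORW u_POS u_KIN c_ADJ c_TPB c_NUI u_HKG u_KST u_WCC c_WC c_VK c_VGR c_ACT

theorem u_NPQ : T_NPQ := Pool.Agent.H73.CFU.pf_NPQ

theorem u_KPR : T_KPR := Pool.Agent.H27.CFU.pf_KPR Pool.Agent.H17.CFU.pf_KID

theorem u_KSM : T_KSM := Pool.Agent.H74.CFU.pf_KSM u_KPR u_NPQ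

theorem u_FF1 : T_FF1 := Pool.Agent.H81.CFU.pf_FF1 u_KSM c_VK c_VGR c_ACT

theorem u_NWS : T_NWS := Pool.Agent.H37.CFU.pf_NWS

theorem u_CFI : T_CFI := Pool.Agent.H40.CFU.pf_CFI c_HZ c_QDV

theorem u_UNB : T_UNB :=
  Pool.Agent.H20.CFU.pf_UNB u_FF1 Pool.Agent.H80.CFU.pf_LVL u_NWS u_CFI u_NPQ c_VK

/-- the unfolded second moment with the kernel -/
theorem u_UNFf : T_UNFf := unff u_UNA u_UNB

theorem u_USL : T_USL :=
  Pool.Agent.H20.CFU.pf_USL Pool.Agent.H34.CFU.pf_SL1 Pool.Agent.H99.CFU.pf_SL2 u_NWS c_QDV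

theorem u_MNS : T_MNS := Pool.Agent.H60.CFU.pf_MNS Pool.Agent.H80.CFU.pf_WBS u_NWS

/-- the average over the discriminant at level `g` -/
theorem u_AVGf : T_AVGf' :=
  Pool.Agent.H32.CFU.pf_AVGf c_AVG u_USL Pool.Agent.H17.CFU.pf_USZ Pool.Agent.H83.CFU.pf_WDS u_MNS

/-- the main term for fixed discriminant -/
theorem u_MNf : T_MNf := Pool.Agent.H27.CFU.pf_MNf c_SSA

end Pool.Agent.H31.CFU
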