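import Pool.Agent.H91.CF.Main

/-!
# Complete family (MP_347b49_nt), part U: the unfolded second moment with the kernel, change of the
level
-/

set_option autoImplicit false

open MeasureTheory Set Filter
open scoped Real Matrix MatrixGroups

namespace Pool.Agent.H31.CF

open Pool.Agent.H31.CN Pool.Agent.H91.CF

/-! ### The unfolded second moment at level `D` -/

/-- the sum over the vectors with the kernel -/
noncomputable def F1 (f : ℕ) (Q : QF) : ℝ :=
  ∑' v : ℤ × ℤ, Vk (val Q v / (f * Real.sqrt (dsc Q))) / Real.sqrt (val Q v) * kern f Q (1, 0) v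

/-- the weight of the pair of squarefree numbers `m₁`, `m₂`, with a coprimality condition -/
noncomputable def wU (f m₁ m₂ : ℕ) (X : ℝ) (Q : QF) (e : ℕ) : ℝ :=
  if Nat.Coprime (e * Q.1.toNat) f then
    Vk ((e : ℝ) ^ 2 * Q.1 / ((m₁ : ℝ) * m₂ * X)) / Real.sqrt ((e : ℝ) ^ 2 * Q.1) *
      Nw m₁ m₂ Q.1.toNat Q.2.1 Q.2.2 e else 0

/-- the unfolded second moment at level `D` -/
noncomputable def U0 (m₁ m₂ f D : ℕ) : ℝ :=
  US D (wU f m₁ m₂ (f * Real.sqrt D)) (F1 f)

/-! ### The coefficients -/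

/-- the number of the unit lines modulo `p` for the form `(A, B, C)` with `p` not dividing `A` -/
def np (p : ℕ) (A B C : ℤ) : ℕ :=
  1 + ((Finset.range p).filter (fun j : ℕ => ¬ (p : ℤ) ∣ A * (j : ℤ) ^ 2 + B * j + C)).card

/-- the coefficient of `d` -/
noncomputable def cf (g d : ℕ) (A B C : ℤ) : ℝ :=
  (∏ p ∈ d.primeFactors, -(1 / (np p A B C : ℝ))) *
    ∏ p ∈ (g / d).primeFactors, (1 - 1 / (np p A B C : ℝ))

/-! ### Change of the level of the weights -/

/-- the weight at level `(d s) ^ 2 Δ` that belongs to the weight `w` at level `Δ` and to the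
condition that the last coefficient is prime to `d` -/
noncomputable def ws (d s : ℕ) (w : ℕ → ℕ → ℤ → ℤ → ℝ) (e A : ℕ) (B C : ℤ) : ℝ :=
  if d ^ 2 ∣ A then ∑ k ∈ Finset.range s,
    (if ((d * s : ℕ) : ℤ) ∣ B + 2 * A * k ∧ ((s ^ 2 : ℕ) : ℤ) ∣ C + B * k + A * (k : ℤ) ^ 2 ∧
        IsCoprime ((C + B * k + A * (k : ℤ) ^ 2) / (s ^ 2 : ℕ)) (d : ℤ) then
      w e (A / d ^ 2) ((B + 2 * A * k) / (d * s : ℕ)) ((C + B * k + A * (k : ℤ) ^ 2) / (s ^ 2 : ℕ))
      else 0) else 0

end Pool.Agent.H31.CF
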